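import Pool.Agent.Helper36_TNF.Rel
import Pool.Agent.Helper36_TOR.Main

/-! Part (a) of S01763, near-far block: HEI, from the quasi-unipotence of E_(v,c) on the near
classes to that of the transvections. -/

set_option autoImplicit false

namespace Pool.Agent.TNF.H36

open CategoryTheory Rep Representation Pool.Agent.TOR Pool.Agent.TOR.H58 Pool.Agent.TOR.H59
open Pool.Agent.TOR96 Pool.Agent.TOR.H29 Pool.Agent.TOR.SA Pool.Agent.TNF

/-- near elements act on near classes -/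
theorem cR_near {m r : ℕ} (q : ℕ) (φ : St r)
    (x : groupHomology (Rep.trivial ℚ (IT r) ℚ) q) :
    cR (IT (m + r)) q (up m r φ) (hn (upI m r) q x) = hn (upI m r) q (cR (IT r) q φ x) := by
  have h1 := gI_comp (upI m r) (cN (IT (m + r)) (up m r φ))
    (A := Rep.trivial ℚ (IT r) ℚ) (B := Rep.trivial ℚ (IT (m + r)) ℚ)
    (C := Rep.trivial ℚ (IT (m + r)) ℚ)
    (𝟙 (Rep.trivial ℚ (IT r) ℚ)) (𝟙 (Rep.trivial ℚ (IT (m + r)) ℚ))
    (𝟙 (Rep.trivial ℚ (IT r) ℚ)) (fun _ => rfl) q x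
  have h2 := gI_comp (cN (IT r) φ) (upI m r)
    (A := Rep.trivial ℚ (IT r) ℚ) (B := Rep.trivial ℚ (IT r) ℚ)
    (C := Rep.trivial ℚ (IT (m + r)) ℚ)
    (𝟙 (Rep.trivial ℚ (IT r) ℚ)) (𝟙 (Rep.trivial ℚ (IT r) ℚ))
    (𝟙 (Rep.trivial ℚ (IT r) ℚ)) (fun _ => rfl) q x
  have h3 := gI_congr (φ := (cN (IT (m + r)) (up m r φ)).comp (upI m r))
    (ψ := (upI m r).comp (cN (IT r) φ))
    (fun ψ => Subtype.ext (by
      change ((cN (IT (m + r)) (up m r φ) (upI m r ψ) : IT (m + r)) : St (m + r)) =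
        up m r ((cN (IT r) φ ψ : IT r) : St r)
      rw [cN_coe, cN_coe, map_mul, map_mul, map_inv]
      rfl))
    (A := Rep.trivial ℚ (IT r) ℚ) (B := Rep.trivial ℚ (IT (m + r)) ℚ)
    (𝟙 (Rep.trivial ℚ (IT r) ℚ)) (𝟙 (Rep.trivial ℚ (IT r) ℚ)) (fun _ => rfl) q x
  exact (h1.trans h3).trans h2.symm

/-- conjugation of the elements E(v,w) -/
theorem isE_conj {n : ℕ} {v w : Hh n} {ψ : St n} (φ : St n) (h : SA.IsE v w ψ) :
    SA.IsE (hact φ v) (hact φ w) (φ * ψ * φ⁻¹) := by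
  intro x
  rw [mul_app, mul_app, ← hact_ev, h, hact_add, hact_add, hact_smul, hact_smul, hact_ev,
    app_inv_self]
  have h1 : ∀ u, sf (ev (app φ⁻¹ x)) u = sf (ev x) (hact φ u) := by
    intro u
    rw [← sf_hact φ, hact_ev, app_inv_self]
  rw [h1, h1]

theorem hact_inv_hact {n : ℕ} (φ : St n) (v : Hh n) : hact φ⁻¹ (hact φ v) = v := by
  rw [← hact_mul, inv_mul_cancel, hact_one]

/-- transport of the vanishing by a conjugation -/
theorem kill_conj {K r : ℕ} (q N : ℕ) (φ ψ : St (K + r))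
    (y z : groupHomology (Rep.trivial ℚ (IT (K + r)) ℚ) q) (hz : cR (IT (K + r)) q φ z = y)
    (h : ∃ m : ℕ, (((cR (IT (K + r)) q (φ⁻¹ * ψ * φ)) ^ N - 1) ^ m) z = 0) :
    ∃ m : ℕ, (((cR (IT (K + r)) q ψ) ^ N - 1) ^ m) y = 0 := by
  obtain ⟨m, hm⟩ := h
  refine ⟨m, ?_⟩
  have h1 := cR_conj (K := K) (r := r) φ q N m (φ⁻¹ * ψ * φ) z hm
  have h2 : φ * (φ⁻¹ * ψ * φ) * φ⁻¹ = ψ := by group
  rw [h2, hz] at h1
  exact h1

theorem exists_hact {n : ℕ} (hn : 0 < n) {v w : Hh n} (hv : Prm v) (hw : Prm w) :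
    ∃ φ : St n, hact φ v = w := by
  obtain ⟨a, ha⟩ := trv_final n hn v hv
  obtain ⟨b, hb⟩ := trv_final n hn w hw
  refine ⟨b * a⁻¹, ?_⟩
  rw [← hact_ev] at ha hb
  rw [hact_mul, ← ha, hact_inv_hact, hb]

/-- from NEE (distinguished near class, y-feet) to the general form NE -/
theorem ne_of_nee (q N : ℕ) (h : ∀ (g : ℕ) (φ : St (q + 1 + (g + 1))),
    TNF.IsE (q + 1) g (Pi.single 0 1) 0 φ →
    ∀ x : groupHomology (Rep.trivial ℚ (IT (g + 1)) ℚ) q,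
      ∃ m : ℕ, (((cR (IT (q + 1 + (g + 1))) q φ) ^ N - 1) ^ m)
        (hn (upI (q + 1) (g + 1)) q x) = 0) : NE q N (q + 1) 0 := by
  refine ⟨0, fun r _ v hv => ?_⟩
  -- r = g + 1
  obtain ⟨g, rfl⟩ : ∃ g, r = g + 1 := by
    rcases r with _ | g
    · obtain ⟨w, hw⟩ := hv
      exfalso
      have : sf v w = 0 := by unfold sf; simp
      omega
    · exact ⟨g, rfl⟩
  -- the case of the letter y
  have h1 : ∀ ψ : St (q + 1 + (g + 1)),
      SA.IsE (upv (q + 1) (g + 1) v) (Pi.single (loE (q + 1) (g + 1) (1, 0)) 1) ψ →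
      ∀ x : groupHomology (Rep.trivial ℚ (IT (g + 1)) ℚ) q, ∃ m : ℕ,
        (((cR (IT (q + 1 + (g + 1))) q ψ) ^ N - 1) ^ m)
          (hn (upI (q + 1) (g + 1)) q x) = 0 := by
    intro ψ hψ x
    obtain ⟨φ, hφ⟩ := exists_hact (Nat.succ_pos g) (prm_single (1 : Fin 2) (Fin.last g)) hv
    have hUv : hact (up (q + 1) (g + 1) φ) (vn (q + 1) g) = upv (q + 1) (g + 1) v := by
      rw [vn_eq, ← hφ]
      obtain ⟨x, hx⟩ := SA.ev_surj (Pi.single (1, Fin.last g) 1 : Hh (g + 1))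
      rw [← hx, ← ev_map, hact_ev, up_map, ev_map, hact_ev]
    have hUc : hact (up (q + 1) (g + 1) φ) (cf (q + 1) g 0) = cf (q + 1) g 0 := by
      have e1 : cf (q + 1) g 0 = ev (FreeGroup.of (loE (q + 1) (g + 1) (1, 0))) := by
        rw [ev_of]; rfl
      rw [e1, hact_ev, up_of]
    have hUv' : hact (up (q + 1) (g + 1) φ)⁻¹ (upv (q + 1) (g + 1) v) = vn (q + 1) g := by
      rw [← hUv, hact_inv_hact]
    have hUc' : hact (up (q + 1) (g + 1) φ)⁻¹ (cf (q + 1) g 0) = cf (q + 1) g 0 := by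
      conv_lhs => rw [← hUc]
      rw [hact_inv_hact]
    refine kill_conj q _ (up (q + 1) (g + 1) φ) ψ _
      (hn (upI (q + 1) (g + 1)) q (cR (IT (g + 1)) q φ⁻¹ x)) ?_ ?_
    · rw [cR_near, ← Module.End.mul_apply, ← map_mul, mul_inv_cancel, map_one]; rfl
    · refine h g _ ⟨fun _ _ => rfl, fun z => ?_⟩ _
      have h3 := isE_conj (up (q + 1) (g + 1) φ)⁻¹ hψ
      have h4 : (Pi.single (loE (q + 1) (g + 1) (1, 0)) 1 : Hh (q + 1 + (g + 1))) =
          cf (q + 1) g 0 := rfl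
      rw [h4, hUv', hUc', inv_inv] at h3
      have e1 : (∑ i, (Pi.single 0 1 : Fin (q + 1) → ℤ) i • cf (q + 1) g i) =
          cf (q + 1) g 0 := by
        rw [Finset.sum_eq_single 0]
        · rw [Pi.single_eq_same, one_smul]
        · intro b _ hb; rw [Pi.single_eq_of_ne hb, zero_smul]
        · intro h; exact absurd (Finset.mem_univ _) h
      rw [h3 z, e1]
      simp
  intro a ψ hψ x
  fin_cases a
  · -- the letter x: rotation
    obtain ⟨ρ, hρ⟩ := exists_hact (Nat.succ_pos q) (prm_single (1 : Fin 2) (0 : Fin (q + 1)))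
      (prm_single (0 : Fin 2) (0 : Fin (q + 1)))
    have h3 := isE_conj (dn (q + 1) (g + 1) ρ)⁻¹ hψ
    have h4 : hact (dn (q + 1) (g + 1) ρ)⁻¹ (upv (q + 1) (g + 1) v) =
        upv (q + 1) (g + 1) v := by
      rw [← map_inv, hact_dn_near]
    have h5 : hact (dn (q + 1) (g + 1) ρ)⁻¹
        (Pi.single (loE (q + 1) (g + 1) (0, 0)) 1) =
        Pi.single (loE (q + 1) (g + 1) (1, 0)) 1 := by
      rw [← dnv_single, ← dnv_single, ← hρ, ← hact_dn_far, hact_inv_hact]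
    have h6 : (Pi.single (loE (q + 1) (g + 1) ((fun i => i) ⟨0, by norm_num⟩, 0)) 1 :
        Hh (q + 1 + (g + 1))) = Pi.single (loE (q + 1) (g + 1) (0, 0)) 1 := rfl
    rw [h6] at h3
    rw [h4, h5, inv_inv] at h3
    refine kill_conj q _ (dn (q + 1) (g + 1) ρ) ψ _ (hn (upI (q + 1) (g + 1)) q x) ?_ ?_
    · rw [cR_dn]
    · exact h1 _ h3 x
  · exact h1 ψ hψ x

/-- HEI -/
theorem hei (h : NEE) : NUT := by
  intro q
  obtain ⟨N, hN⟩ : ∃ N, N = (2 ^ (q + 1)).factorial := ⟨_, rfl⟩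
  have h1 : 0 < N := by rw [hN]; exact Nat.factorial_pos _
  have h2 : NU q (2 * (N * N)) (q + 1) (0 + 1) := by
    refine nu_of_ne (ne_of_nee q N fun g φ hφ x => ?_)
    rw [hN]
    exact h q g 0 φ 0 hφ x
  exact ⟨2 * (N * N), Nat.mul_pos (by norm_num) (Nat.mul_pos h1 h1), h2⟩

end Pool.Agent.TNF.H36
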