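import Pool.Agent.Helper18_TNF.Stmts
import Pool.Agent.Helper36_TOR.Far

/-! Part (a) of S01763, near-far block: REL, realisation of elements by mapping classes. -/

set_option autoImplicit false

namespace Pool.Agent.TNF.H36

open CategoryTheory Rep Representation Pool.Agent.TOR Pool.Agent.TOR.H59
open Pool.Agent.TOR96 Pool.Agent.TOR.H29 Pool.Agent.TOR.SA Pool.Agent.TNF

theorem dnv_single {m r : ℕ} (l : Fin 2 × Fin m) :
    dnv m r (Pi.single l 1 : Hh m) = Pi.single (loE m r l) 1 := by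
  rw [← ev_of, ← ev_mapL, FreeGroup.map.of, ev_of]

theorem upv_single {m r : ℕ} (l : Fin 2 × Fin r) :
    upv m r (Pi.single l 1 : Hh r) = Pi.single (hiE m r l) 1 := by
  rw [← ev_of, ← ev_map, FreeGroup.map.of, ev_of]

theorem cf_eq (r g : ℕ) (i : Fin r) : cf r g i = dnv r (g + 1) (Pi.single (1, i) 1) :=
  (dnv_single ((1 : Fin 2), i)).symm

theorem xf_eq (r g : ℕ) (i : Fin r) : xf r g i = dnv r (g + 1) (Pi.single (0, i) 1) :=
  (dnv_single ((0 : Fin 2), i)).symm

theorem vn_eq (r g : ℕ) : vn r g = upv r (g + 1) (Pi.single (1, Fin.last g) 1) :=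
  (upv_single ((1 : Fin 2), Fin.last g)).symm

theorem sf_yy {n : ℕ} (i j : Fin n) :
    sf (Pi.single ((1 : Fin 2), i) 1 : Hh n) (Pi.single ((1 : Fin 2), j) 1) = 0 := by
  rw [sf_single_left]; simp

theorem sf_yx {n : ℕ} (i j : Fin n) :
    sf (Pi.single ((1 : Fin 2), i) 1 : Hh n) (Pi.single ((0 : Fin 2), j) 1) =
      if i = j then -1 else 0 := by
  rw [sf_single_left, if_neg (by decide)]
  by_cases h : i = j
  · subst h; simp
  · rw [if_neg h, Pi.single_eq_of_ne (fun h' => h (Prod.ext_iff.1 h').2), neg_zero]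

theorem sf_cf_cf (r g : ℕ) (i j : Fin r) : sf (cf r g i) (cf r g j) = 0 := by
  rw [cf_eq, cf_eq, sf_dnv, sf_yy]

theorem sf_cf_vn (r g : ℕ) (i : Fin r) : sf (cf r g i) (vn r g) = 0 := by
  rw [cf_eq, vn_eq, sf_dnv_upv]

theorem sf_vn_cf (r g : ℕ) (i : Fin r) : sf (vn r g) (cf r g i) = 0 := by
  rw [sf_swap, sf_cf_vn, neg_zero]

theorem far_dn (r g : ℕ) (φ : St r) : Far r g (dn r (g + 1) φ) := fun χ => near_far φ χ

theorem far_one (r g : ℕ) : Far r g 1 := fun χ => by rw [one_mul, mul_one]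

theorem Far.mul {r g : ℕ} {a b : St (r + (g + 1))} (ha : Far r g a) (hb : Far r g b) :
    Far r g (a * b) := fun χ => by
  rw [mul_assoc, hb χ, ← mul_assoc, ha χ, mul_assoc]

theorem Far.inv {r g : ℕ} {a : St (r + (g + 1))} (ha : Far r g a) : Far r g a⁻¹ := fun χ => by
  have h := ha χ
  calc a⁻¹ * up r (g + 1) χ = a⁻¹ * (up r (g + 1) χ * a) * a⁻¹ := by group
    _ = a⁻¹ * (a * up r (g + 1) χ) * a⁻¹ := by rw [h]
    _ = up r (g + 1) χ * a⁻¹ := by group

/-- every class of the surface is a far class plus a near class -/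
theorem dnv_upv_surj {m r : ℕ} (v : Hh (m + r)) : ∃ a b, v = dnv m r a + upv m r b := by
  refine ⟨fun l => v (loE m r l), fun l => v (hiE m r l), hh_ext (fun l => ?_) (fun l => ?_)⟩
  · rw [Pi.add_apply, dnv_new, upv_old, zero_add]
  · rw [Pi.add_apply, dnv_old, upv_new, add_zero]

theorem isTv_hact {n : ℕ} {v : Hh n} {k : ℤ} {φ : St n} (h : IsTv v k φ) (w : Hh n) :
    hact φ w = w + (k * sf w v) • v := by
  obtain ⟨x, rfl⟩ := SA.ev_surj w
  rw [hact_ev, h]

/-- a far transvection -/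
theorem isTv_dn {m r : ℕ} {v : Hh m} {k : ℤ} {φ : St m} (h : IsTv v k φ) :
    IsTv (dnv m r v) k (dn m r φ) := by
  intro x
  rw [← hact_ev]
  obtain ⟨a, b, hab⟩ := dnv_upv_surj (ev x)
  have h1 : sf (upv m r b) (dnv m r v) = 0 := by rw [sf_swap, sf_dnv_upv, neg_zero]
  rw [hab, hact_add, hact_dn_far, hact_dn_near, isTv_hact h, sf_add_left, sf_dnv, h1, dnv_add,
    dnv_smul, add_zero]
  abel

/-! ### the Sym² part -/

theorem sf_sum_left {n : ℕ} {ι : Type*} (s : Finset ι) (f : ι → Hh n) (w : Hh n) :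
    sf (∑ i ∈ s, f i) w = ∑ i ∈ s, sf (f i) w := by
  classical
  induction s using Finset.induction_on with
  | empty => simp [sf_zero_left]
  | insert a s ha ih => rw [Finset.sum_insert ha, Finset.sum_insert ha, sf_add_left, ih]

/-- the displacement of a Sym² element -/
def dS (r g : ℕ) (sig : Fin r → Fin r → ℤ) (v : Hh (r + (g + 1))) : Hh (r + (g + 1)) :=
  ∑ i, ∑ j, (sig i j * sf v (cf r g i)) • cf r g j

theorem sf_dS (r g : ℕ) (sig : Fin r → Fin r → ℤ) (v : Hh (r + (g + 1))) (j : Fin r) :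
    sf (dS r g sig v) (cf r g j) = 0 := by
  unfold dS
  rw [sf_sum_left]
  refine Finset.sum_eq_zero fun a _ => ?_
  rw [sf_sum_left]
  refine Finset.sum_eq_zero fun b _ => ?_
  rw [sf_smul_left, sf_cf_cf, mul_zero]

theorem dS_add (r g : ℕ) (s t : Fin r → Fin r → ℤ) (v : Hh (r + (g + 1))) :
    dS r g (s + t) v = dS r g s v + dS r g t v := by
  unfold dS
  simp only [Pi.add_apply, add_mul, add_smul, Finset.sum_add_distrib]

theorem dS_neg (r g : ℕ) (s : Fin r → Fin r → ℤ) (v : Hh (r + (g + 1))) :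
    dS r g (-s) v = -dS r g s v := by
  unfold dS
  simp only [Pi.neg_apply, neg_mul, neg_smul, Finset.sum_neg_distrib]

theorem dS_zero (r g : ℕ) (v : Hh (r + (g + 1))) : dS r g 0 v = 0 := by
  unfold dS
  simp

/-- dS only depends on the pairings with the feet -/
theorem dS_congr (r g : ℕ) (s : Fin r → Fin r → ℤ) {v w : Hh (r + (g + 1))}
    (h : ∀ j, sf v (cf r g j) = sf w (cf r g j)) : dS r g s v = dS r g s w := by
  unfold dS
  simp only [h]

/-- realised by a far element -/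
def RS (r g : ℕ) (sig : Fin r → Fin r → ℤ) : Prop :=
  ∃ ψ, Far r g ψ ∧ ∀ x, ev (app ψ x) = ev x + dS r g sig (ev x)

/-- the set of realised matrices is a subgroup -/
def RSG (r g : ℕ) : AddSubgroup (Fin r → Fin r → ℤ) where
  carrier := {sig | RS r g sig}
  zero_mem' := ⟨1, far_one r g, fun x => by rw [one_app, dS_zero, add_zero]⟩
  add_mem' := by
    rintro s t ⟨a, ha, ha'⟩ ⟨b, hb, hb'⟩
    refine ⟨a * b, Far.mul ha hb, fun x => ?_⟩
    have h1 : dS r g s (ev x + dS r g t (ev x)) = dS r g s (ev x) :=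
      dS_congr r g s fun j => by rw [sf_add_left, sf_dS, add_zero]
    rw [mul_app, ha', hb', h1, dS_add]
    abel
  neg_mem' := by
    rintro s ⟨a, ha, ha'⟩
    refine ⟨a⁻¹, Far.inv ha, fun x => ?_⟩
    have h := ha' (app a⁻¹ x)
    rw [app_inv_self] at h
    have h1 : dS r g s (ev (app a⁻¹ x)) = dS r g s (ev x) :=
      dS_congr r g s fun j => by rw [h, sf_add_left, sf_dS, add_zero]
    rw [h1] at h
    rw [dS_neg, ← sub_eq_add_neg, eq_sub_iff_add_eq]
    exact h.symm

/-- transvection of a combination of the feet -/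
theorem dS_sq (r g : ℕ) (a : Fin r → ℤ) (v : Hh (r + (g + 1))) :
    dS r g (fun i j => a i * a j) v =
      (1 * sf v (∑ i, a i • cf r g i)) • ∑ i, a i • cf r g i := by
  have h1 : sf v (∑ i, a i • cf r g i) = ∑ i, a i * sf v (cf r g i) := by
    rw [sf_swap, sf_sum_left, ← Finset.sum_neg_distrib]
    refine Finset.sum_congr rfl fun i _ => ?_
    rw [sf_smul_left, sf_swap (cf r g i) v]
    ring
  rw [h1, one_mul, Finset.sum_smul]
  unfold dS
  refine Finset.sum_congr rfl fun i _ => ?_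
  rw [Finset.smul_sum]
  refine Finset.sum_congr rfl fun j _ => ?_
  rw [smul_smul]
  congr 1
  ring

theorem dnv_sum {m r : ℕ} {ι : Type*} (s : Finset ι) (f : ι → Hh m) :
    dnv m r (∑ i ∈ s, f i) = ∑ i ∈ s, dnv m r (f i) := by
  classical
  induction s using Finset.induction_on with
  | empty => simp [dnv_zero]
  | insert a s ha ih => rw [Finset.sum_insert ha, Finset.sum_insert ha, dnv_add, ih]

theorem mem_RSG_sq (r g : ℕ) (hr : 0 < r) (a : Fin r → ℤ)
    (ha : Prm (∑ i, a i • (Pi.single (1, i) 1 : Hh r))) :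
    (fun i j => a i * a j) ∈ RSG r g := by
  obtain ⟨φ, hφ⟩ := exists_tv trv_final hr ha
  refine ⟨dn r (g + 1) φ, far_dn r g φ, fun x => ?_⟩
  have h1 := isTv_dn (r := g + 1) hφ x
  have h2 : dnv r (g + 1) (∑ i, a i • (Pi.single (1, i) 1 : Hh r)) = ∑ i, a i • cf r g i := by
    rw [dnv_sum]
    refine Finset.sum_congr rfl fun i _ => ?_
    rw [dnv_smul, cf_eq]
  rw [dS_sq, ← h2]
  exact h1

/-- elementary symmetric matrices -/
def Pm {r : ℕ} (i j : Fin r) : Fin r → Fin r → ℤ :=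
  fun a b => if (a = i ∧ b = j) ∨ (a = j ∧ b = i) then 1 else 0

theorem Pm_diag_mem (r g : ℕ) (i : Fin r) : Pm i i ∈ RSG r g := by
  have hr : 0 < r := i.pos
  have h : (∑ k, (if k = i then 1 else 0 : ℤ) • (Pi.single (1, k) 1 : Hh r)) =
      Pi.single (1, i) 1 := by
    rw [Finset.sum_eq_single i]
    · rw [if_pos rfl, one_smul]
    · intro b _ hb; rw [if_neg hb, zero_smul]
    · intro hb; exact absurd (Finset.mem_univ _) hb
  have h2 := mem_RSG_sq r g hr (fun k => if k = i then 1 else 0) (by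
    rw [h]; exact prm_single 1 i)
  have h3 : Pm i i = fun a b => (if a = i then 1 else 0 : ℤ) * (if b = i then 1 else 0) := by
    funext a b
    unfold Pm
    by_cases ha : a = i <;> by_cases hb : b = i <;> simp [ha, hb]
  rw [h3]; exact h2

theorem Pm_mem (r g : ℕ) (i j : Fin r) : Pm i j ∈ RSG r g := by
  by_cases hij : i = j
  · subst hij; exact Pm_diag_mem r g i
  have hr : 0 < r := i.pos
  have h : (∑ k, (if k = i ∨ k = j then 1 else 0 : ℤ) • (Pi.single (1, k) 1 : Hh r)) =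
      Pi.single (1, i) 1 + Pi.single (1, j) 1 := by
    have h4 : ∀ k, (if k = i ∨ k = j then 1 else 0 : ℤ) • (Pi.single (1, k) 1 : Hh r) =
        (if k = i then 1 else 0 : ℤ) • (Pi.single (1, k) 1 : Hh r) +
        (if k = j then 1 else 0 : ℤ) • (Pi.single (1, k) 1 : Hh r) := by
      intro k
      by_cases hk : k = i
      · subst hk; simp [hij]
      · by_cases hk' : k = j <;> simp [hk, hk', Ne.symm hij]
    simp only [h4, Finset.sum_add_distrib]
    congr 1
    · rw [Finset.sum_eq_single i]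
      · rw [if_pos rfl, one_smul]
      · intro b _ hb; rw [if_neg hb, zero_smul]
      · intro hb; exact absurd (Finset.mem_univ _) hb
    · rw [Finset.sum_eq_single j]
      · rw [if_pos rfl, one_smul]
      · intro b _ hb; rw [if_neg hb, zero_smul]
      · intro hb; exact absurd (Finset.mem_univ _) hb
  have h2 := mem_RSG_sq r g hr (fun k => if k = i ∨ k = j then 1 else 0) (by
    rw [h]
    refine ⟨-Pi.single (0, i) 1, ?_⟩
    rw [sf_neg_right, sf_add_left, sf_yx, sf_yx, if_pos rfl, if_neg (Ne.symm hij)]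
    norm_num)
  have h3 : Pm i j = (fun a b => (if a = i ∨ a = j then 1 else 0 : ℤ) *
      (if b = i ∨ b = j then 1 else 0)) - Pm i i - Pm j j := by
    funext a b
    unfold Pm
    simp only [Pi.sub_apply]
    by_cases ha : a = i
    · subst ha
      by_cases hb : b = a
      · subst hb; simp [hij]
      · by_cases hb' : b = j <;> simp [hij, hb, hb', Ne.symm hij]
    · by_cases ha' : a = j
      · subst ha'
        by_cases hb : b = i
        · subst hb; simp [ha, hij]
        · by_cases hb' : b = a <;> simp [ha, hb, hb']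
      · simp [ha, ha']
  rw [h3]
  exact sub_mem (sub_mem h2 (Pm_diag_mem r g i)) (Pm_diag_mem r g j)

theorem sig_eq {r : ℕ} (sig : Fin r → Fin r → ℤ) (hs : ∀ i j, sig i j = sig j i) :
    sig = ∑ i, ∑ j, (if i ≤ j then sig i j else 0) • Pm i j := by
  have key : ∀ a b : Fin r, a ≤ b →
      (∑ i, ∑ j, (if i ≤ j then sig i j else 0) • Pm i j) a b = sig a b := by
    intro a b hab
    rw [Finset.sum_apply, Finset.sum_apply, Finset.sum_eq_single a]
    · rw [Finset.sum_apply, Finset.sum_apply, Finset.sum_eq_single b]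
      · rw [if_pos hab]
        simp [Pm]
      · intro c _ hc
        rw [Pi.smul_apply, Pi.smul_apply]
        unfold Pm
        rw [if_neg (c := (a = a ∧ b = c) ∨ (a = c ∧ b = a)), smul_zero]
        rintro (⟨_, h⟩ | ⟨h1, h2⟩)
        · exact hc h.symm
        · exact hc (h1.symm.trans h2.symm)
      · intro h; exact absurd (Finset.mem_univ _) h
    · intro c _ hc
      rw [Finset.sum_apply, Finset.sum_apply]
      refine Finset.sum_eq_zero fun d _ => ?_
      rw [Pi.smul_apply, Pi.smul_apply]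
      unfold Pm
      by_cases hcd : c ≤ d
      · rw [if_neg (c := (a = c ∧ b = d) ∨ (a = d ∧ b = c)), smul_zero]
        rintro (⟨h, _⟩ | ⟨h1, h2⟩)
        · exact hc h.symm
        · subst h1; subst h2
          exact hc (le_antisymm hcd hab)
      · rw [if_neg hcd, zero_smul]
    · intro h; exact absurd (Finset.mem_univ _) h
  have hP : ∀ i j a b : Fin r, Pm i j a b = Pm i j b a := by
    intro i j a b
    unfold Pm
    refine if_congr ?_ rfl rfl
    constructor
    · rintro (⟨h1, h2⟩ | ⟨h1, h2⟩)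
      · exact Or.inr ⟨h2, h1⟩
      · exact Or.inl ⟨h2, h1⟩
    · rintro (⟨h1, h2⟩ | ⟨h1, h2⟩)
      · exact Or.inr ⟨h2, h1⟩
      · exact Or.inl ⟨h2, h1⟩
  funext a b
  rcases le_total a b with hab | hab
  · exact (key a b hab).symm
  · rw [hs a b, ← key b a hab]
    simp only [Finset.sum_apply, Pi.smul_apply]
    refine Finset.sum_congr rfl fun i _ => Finset.sum_congr rfl fun j _ => ?_
    rw [hP]

theorem RS_all (r g : ℕ) (sig : Fin r → Fin r → ℤ) (hs : ∀ i j, sig i j = sig j i) :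
    RS r g sig := by
  have h : sig ∈ RSG r g := by
    rw [sig_eq sig hs]
    refine sum_mem fun i _ => sum_mem fun j _ => ?_
    exact zsmul_mem (Pm_mem r g i j) _
  exact h

/-! ### far symmetries -/

theorem isE_hact {n : ℕ} {v w : Hh n} {φ : St n} (h : SA.IsE v w φ) (u : Hh n) :
    hact φ u = u + sf u v • w + sf u w • v := by
  obtain ⟨x, rfl⟩ := SA.ev_surj u
  rw [hact_ev, h]

/-- `y_j ↦ y_j + k y_l`, the other y-classes fixed -/
def Sy {r : ℕ} (j l : Fin r) (k : ℤ) (ψ : St r) : Prop :=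
  hact ψ (Pi.single (1, j) 1) = Pi.single (1, j) 1 + k • Pi.single (1, l) 1 ∧
    ∀ i, i ≠ j → hact ψ (Pi.single (1, i) 1) = Pi.single (1, i) 1

theorem Sy.mul {r : ℕ} {j l : Fin r} (hjl : j ≠ l) {k k' : ℤ} {a b : St r} (ha : Sy j l k a)
    (hb : Sy j l k' b) : Sy j l (k + k') (a * b) := by
  refine ⟨?_, fun i hi => ?_⟩
  · rw [hact_mul, hb.1, hact_add, hact_smul, ha.1, ha.2 l (Ne.symm hjl), add_smul]
    abel
  · rw [hact_mul, hb.2 i hi, ha.2 i hi]

theorem Sy.inv {r : ℕ} {j l : Fin r} (hjl : j ≠ l) {k : ℤ} {a : St r} (ha : Sy j l k a) :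
    Sy j l (-k) a⁻¹ := by
  have h0 : ∀ u, hact a⁻¹ (hact a u) = u := fun u => by
    rw [← hact_mul, inv_mul_cancel, hact_one]
  have h1 : ∀ i, i ≠ j → hact a⁻¹ (Pi.single (1, i) 1) = Pi.single (1, i) 1 := by
    intro i hi
    conv_lhs => rw [← ha.2 i hi]
    rw [h0]
  refine ⟨?_, h1⟩
  have h2 := h0 (Pi.single (1, j) 1)
  rw [ha.1, hact_add, hact_smul, h1 l (Ne.symm hjl)] at h2
  rw [neg_smul, ← sub_eq_add_neg, eq_sub_iff_add_eq]
  exact h2

theorem exists_Sy {r : ℕ} {j l : Fin r} (hjl : j ≠ l) (k : ℤ) : ∃ ψ : St r, Sy j l k ψ := by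
  have hr : 0 < r := j.pos
  have hxx : sf (Pi.single ((0 : Fin 2), j) 1 : Hh r) (Pi.single ((1 : Fin 2), l) 1) = 0 := by
    rw [sf_swap, sf_yx, if_neg (Ne.symm hjl), neg_zero]
  have hp : Prm ((Pi.single ((0 : Fin 2), j) 1 : Hh r) + Pi.single ((1 : Fin 2), l) 1) := by
    refine ⟨-Pi.single (0, l) 1, ?_⟩
    rw [sf_neg_right, sf_add_left, sf_yx, if_pos rfl, sf_single_left]
    simp
  obtain ⟨φ, hφ⟩ := exists_isE hr (prm_single 0 j) (prm_single 1 l) hp hxx
  have h1 : Sy j l (-1) φ := by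
    refine ⟨?_, fun i hi => ?_⟩
    · rw [isE_hact hφ, sf_yx, if_pos rfl, sf_yy, zero_smul, add_zero]
    · rw [isE_hact hφ, sf_yx, if_neg hi, sf_yy, zero_smul, zero_smul, add_zero, add_zero]
  have h2 : Sy j l 1 φ⁻¹ := by
    have := h1.inv hjl
    rwa [neg_neg] at this
  induction k using Int.induction_on with
  | zero => exact ⟨1, by rw [hact_one, zero_smul, add_zero], fun i _ => hact_one _⟩
  | succ n ih =>
    obtain ⟨ψ, hψ⟩ := ih
    exact ⟨ψ * φ⁻¹, hψ.mul hjl h2⟩
  | pred n ih =>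
    obtain ⟨ψ, hψ⟩ := ih
    exact ⟨ψ * φ, by rw [sub_eq_add_neg]; exact hψ.mul hjl h1⟩

/-- THE REALISATION MODULE -/
theorem rel : TNF.REL := by
  intro r g
  refine ⟨fun sig hs => ?_, fun j => ?_, fun j l hjl m => ?_, fun l => ?_⟩
  · obtain ⟨ψ, h1, h2⟩ := RS_all r g sig hs
    refine ⟨ψ, h1, hs, fun x => ?_⟩
    rw [h2]
    have e1 : (∑ i, (0 : Fin r → ℤ) i • cf r g i) = 0 := by simp
    rw [e1, smul_zero, sf_zero_right, zero_smul, add_zero, add_zero]
    rfl
  · have hn : 0 < r + (g + 1) := by omega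
    have hv : Prm (vn r g) := prm_single 1 (Fin.natAdd r (Fin.last g))
    have hc : Prm (cf r g j) := prm_single 1 (Fin.castAdd (g + 1) j)
    have hvc : Prm (vn r g + cf r g j) := by
      refine ⟨-xf r g j, ?_⟩
      rw [sf_neg_right, sf_add_left, cf_eq, xf_eq, sf_dnv, sf_yx, if_pos rfl, vn_eq, sf_swap,
        sf_dnv_upv]
      norm_num
    obtain ⟨φ, hφ⟩ := exists_isE hn hv hc hvc (sf_vn_cf r g j)
    refine ⟨φ, fun _ _ => rfl, fun x => ?_⟩
    have e1 : (∑ i, (Pi.single j 1 : Fin r → ℤ) i • cf r g i) = cf r g j := by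
      rw [Finset.sum_eq_single j]
      · rw [Pi.single_eq_same, one_smul]
      · intro b _ hb; rw [Pi.single_eq_of_ne hb, zero_smul]
      · intro h; exact absurd (Finset.mem_univ _) h
    rw [hφ x, e1]
    simp
  · obtain ⟨φ, h1, h2⟩ := exists_Sy hjl m
    refine ⟨dn r (g + 1) φ, far_dn r g φ, ?_, ?_, fun i hi => ?_⟩
    · rw [vn_eq, hact_dn_near]
    · rw [cf_eq, cf_eq, hact_dn_far, h1, dnv_add, dnv_smul]
    · rw [cf_eq, hact_dn_far, h2 i hi]
  · have hr : 0 < r := l.pos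
    obtain ⟨a, ha⟩ := trv_final r hr _ (prm_single (0 : Fin 2) l)
    obtain ⟨b, hb⟩ := trv_final r hr _ (prm_single (1 : Fin 2) l)
    refine ⟨dn r (g + 1) (a * b⁻¹), far_dn r g _, ?_, ?_⟩
    · rw [vn_eq, hact_dn_near]
    · rw [cf_eq, xf_eq, hact_dn_far, hact_mul]
      rw [← hact_ev] at ha hb
      rw [← hb, ← hact_mul b⁻¹ b, inv_mul_cancel, hact_one, ha]

end Pool.Agent.TNF.H36
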